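import Mathlib
import Pool.Agent.H10.IEop

set_option autoImplicit false

namespace Pool.Agent.Results.MP_766cb7_co.Counter

open Set

/-- `f` is an IE-operator on the ground set `α`: extensive, monotone, (cl3), (cl4'). -/
def IsIE {α : Type} (f : Set α → Set α) : Prop :=
  (∀ A, A ⊆ f A) ∧ (∀ A B, A ⊆ B → f A ⊆ f B) ∧ (∀ A, f (f A) = f A) ∧
  ∀ A B q, q ∈ f B → q ∉ f (B \ A) → ∃ a ∈ A, a ∈ f (insert q (B \ {a}))

/-- condition (C) -/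
def CondC {α : Type} (f : Set α → Set α) : Prop :=
  ∀ B q, q ∈ f B → ∃ U, Minimal (fun W => W ⊆ B ∧ q ∈ f W) U ∧ ∀ a ∈ U, a ∉ f (U \ {a})

/-- condition (H) -/
def CondH {α : Type} (f : Set α → Set α) : Prop :=
  ∀ B q, q ∉ f B → ∃ V, Maximal (fun W => B ⊆ W ∧ q ∉ f W) V ∧ f (insert q V) = univ

/-- `J` is an `𝓘`-basis of `A`: a maximal member of `𝓘` contained in `A`. -/
def IsBasis {α : Type} (𝓘 : Set (Set α)) (A J : Set α) : Prop :=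
  Maximal (fun W => W ∈ 𝓘 ∧ W ⊆ A) J

/-- `𝓘` is a B-matroid on the ground set `α`. -/
def IsBMatroid {α : Type} (𝓘 : Set (Set α)) : Prop :=
  ∅ ∈ 𝓘 ∧ (∀ J ∈ 𝓘, ∀ K, K ⊆ J → K ∈ 𝓘) ∧
  (∀ J A, J ∈ 𝓘 → J ⊆ A → ∃ B, IsBasis 𝓘 A B ∧ J ⊆ B) ∧
  ∀ A B₁ B₂, IsBasis 𝓘 A B₁ → IsBasis 𝓘 A B₂ → ∀ a ∈ B₁ \ B₂, ∃ b ∈ B₂ \ B₁,
    IsBasis 𝓘 A (insert b (B₁ \ {a}))

/-- the closure operator of `𝓘` -/
def closure {α : Type} (𝓘 : Set (Set α)) (A : Set α) : Set α :=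
  A ∪ {e | ∃ J ∈ 𝓘, J ⊆ A ∧ insert e J ∉ 𝓘}

theorem result : ∃ (α : Type) (f : Set α → Set α),
    IsIE f ∧ CondC f ∧ CondH f ∧ ¬ ∃ 𝓘 : Set (Set α), IsBMatroid 𝓘 ∧ f = closure 𝓘 := by
  obtain ⟨𝓑, hg, hne, hc, hY, hV⟩ := Pool.Agent.H10.IEop.exists_family
  refine ⟨Pool.Agent.H10.IEop.S, Pool.Agent.H10.IEop.op 𝓑,
    ⟨Pool.Agent.H10.IEop.op_ext, fun _ _ h => Pool.Agent.H10.IEop.op_mono h,
      Pool.Agent.H10.IEop.op_idem, Pool.Agent.H10.IEop.op_cl4 hg⟩,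
    Pool.Agent.H10.IEop.op_C hg hne, Pool.Agent.H10.IEop.op_H hg hc, ?_⟩
  rintro ⟨𝓘, ⟨h0, hdown, hB1, -⟩, hf⟩
  have hY0 : Pool.Agent.H10.IEop.Y0 ∈ 𝓘 := by
    obtain ⟨J, hJ, -⟩ := hB1 ∅ Pool.Agent.H10.IEop.Y0 h0 (empty_subset _)
    refine hdown J hJ.prop.1 _ ?_
    intro e he
    by_contra heJ
    have h1 : e ∈ closure 𝓘 (Pool.Agent.H10.IEop.Y0 \ {e}) := by
      refine Or.inr ⟨J, hJ.prop.1, fun y hy => ⟨hJ.prop.2 hy, fun h => heJ (h ▸ hy)⟩, ?_⟩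
      intro h
      exact heJ (hJ.le_of_ge ⟨h, insert_subset he hJ.prop.2⟩ (subset_insert _ _)
        (mem_insert _ _))
    rw [← hf, Pool.Agent.H10.IEop.op_of_nsp] at h1
    · exact h1.2 rfl
    · rintro ⟨B, hB, h⟩
      exact hY ⟨B, hB, h.trans sdiff_subset⟩
  obtain ⟨I, hI, hYI⟩ := hB1 _ Pool.Agent.H10.IEop.X0 hY0 (fun x hx => Or.inl hx)
  rcases hV I hYI hI.prop.2 with ⟨x, hx, B, hB, hsub⟩ | h
  · have h1 : x ∈ closure 𝓘 (I \ {x}) := by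
      rw [← hf, Pool.Agent.H10.IEop.op_of_sp ⟨B, hB, hsub⟩]; trivial
    rcases h1 with h1 | ⟨J, -, hJ, hJ'⟩
    · exact h1.2 rfl
    · exact hJ' (hdown I hI.prop.1 _ (insert_subset hx (hJ.trans sdiff_subset)))
  · have hp : ((0, 0) : Pool.Agent.H10.IEop.S) ∈ Pool.Agent.H10.IEop.Y0 := rfl
    obtain ⟨h1, h2⟩ := h (0, 0) (Or.inl hp)
    rw [insert_eq_of_mem (hYI hp)] at h1 h2
    apply h2
    intro e he
    by_contra heI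
    have h3 : e ∈ closure 𝓘 I := by
      refine Or.inr ⟨I, hI.prop.1, subset_rfl, ?_⟩
      intro h
      exact heI (hI.le_of_ge ⟨h, insert_subset he hI.prop.2⟩ (subset_insert _ _)
        (mem_insert _ _))
    rw [← hf, Pool.Agent.H10.IEop.op_of_nsp h1] at h3
    exact heI h3

end Pool.Agent.Results.MP_766cb7_co.Counter
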